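import Mathlib

/-!
# Root-rigid groups
-/

set_option autoImplicit false

namespace Pool.Agent.N235.DH

universe u v

/-- `H` is root-rigid: for every `a ≠ 1` there are exponents `r k ≥ 1` such that no sequence in `H`
satisfies all the equations `h k = a * h (k + 1) ^ r k` -/
def RootRigid (H : Type u) [Group H] : Prop :=
  ∀ a : H, a ≠ 1 → ∃ r : ℕ → ℕ, (∀ k, 0 < r k) ∧
    ¬ ∃ h : ℕ → H, ∀ k, h k = a * h (k + 1) ^ r k

/-- groups with a norm in the sense of Dudley -/
def HasDudleyNorm (H : Type u) [Group H] : Prop :=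
  ∃ N : H → ℝ, (∀ g h, N (g * h) ≤ N g + N h) ∧
    ∀ g, g ≠ 1 → ∀ r : ℕ, 0 < r → (r : ℝ) ≤ N (g ^ r) ∧ N g ≤ N (g ^ r)

theorem HasDudleyNorm.rootRigid {H : Type u} [Group H] (h : HasDudleyNorm H) : RootRigid H := by
  obtain ⟨N, hN, hr⟩ := h
  intro a ha
  obtain ⟨C, hC⟩ := exists_nat_ge (N a⁻¹)
  refine ⟨fun k => (k + 1) * (C + 1), fun k => by positivity, ?_⟩
  rintro ⟨g, hg⟩
  have hmono : ∀ (x : H) (m : ℕ), 0 < m → N x ≤ N (x ^ m) := by
    intro x m hm
    by_cases hx : x = 1
    · rw [hx, one_pow]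
    · exact (hr x hx m hm).2
  have hstep : ∀ k, N (g (k + 1) ^ ((k + 1) * (C + 1))) ≤ C + N (g k) := by
    intro k
    have e : g (k + 1) ^ ((k + 1) * (C + 1)) = a⁻¹ * g k := by
      rw [hg k, inv_mul_cancel_left]
    rw [e]
    exact (hN _ _).trans (by linarith)
  have hdown : ∀ k, N (g k) ≤ N (g 0) + k * C := by
    intro k
    induction k with
    | zero => simp
    | succ k ih =>
      have h1 := hmono (g (k + 1)) ((k + 1) * (C + 1)) (by positivity)
      have h2 := hstep k
      push_cast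
      linarith
  have hone : ∀ k : ℕ, N (g 0) < k + 1 → g (k + 1) = 1 := by
    intro k hk
    by_contra hne
    have h1 := (hr _ hne ((k + 1) * (C + 1)) (by positivity)).1
    have h2 := hstep k
    have h3 := hdown k
    push_cast at h1
    have : ((k : ℝ) + 1) * (C + 1) ≤ N (g 0) + k * C + C := by linarith
    nlinarith
  obtain ⟨k, hk⟩ := exists_nat_gt (N (g 0))
  have h1 := hone k (by linarith)
  have h2 := hone (k + 1) (by push_cast; linarith)
  have h3 := hg (k + 1)
  rw [h1, h2, one_pow, mul_one] at h3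
  exact ha h3.symm

/-- countable groups with unique roots, in which no element except for `1` is an `m`-th power for
all `m ≥ 1` -/
theorem rootRigid_of_countable {H : Type u} [Group H] [Countable H]
    (huniq : ∀ (m : ℕ), 0 < m → ∀ g h : H, g ^ m = h ^ m → g = h)
    (hred : ∀ g : H, g ≠ 1 → ∃ m : ℕ, 0 < m ∧ ∀ b : H, b ^ m ≠ g) : RootRigid H := by
  classical
  intro a ha
  obtain ⟨e, he⟩ := exists_surjective_nat H
  -- `root m g` is the `m`-th root of `g` if it exists
  let root : ℕ → H → H := fun m g => if h : ∃ b : H, b ^ m = g then h.choose else 1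
  have hroot : ∀ m, 0 < m → ∀ g b : H, b ^ m = g → root m g = b := by
    intro m hm g b hb
    have hex : ∃ b : H, b ^ m = g := ⟨b, hb⟩
    have : root m g = hex.choose := dif_pos hex
    rw [this]
    exact huniq m hm _ _ (hex.choose_spec.trans hb.symm)
  -- an exponent for which `g ≠ 1` is not a power
  let ex : H → ℕ := fun g => if h : ∃ m : ℕ, 0 < m ∧ ∀ b : H, b ^ m ≠ g then h.choose else 1
  have hex_pos : ∀ g, 0 < ex g := by
    intro g
    by_cases h : ∃ m : ℕ, 0 < m ∧ ∀ b : H, b ^ m ≠ g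
    · have : ex g = h.choose := dif_pos h
      rw [this]
      exact h.choose_spec.1
    · have : ex g = 1 := dif_neg h
      rw [this]
      exact one_pos
  have hex : ∀ g : H, g ≠ 1 → ∀ b : H, b ^ ex g ≠ g := by
    intro g hg b
    have h := hred g hg
    have : ex g = h.choose := dif_pos h
    rw [this]
    exact h.choose_spec.2 b
  -- states: the value `h k` determined by `h 0 = e j` and the exponents chosen so far
  -- `V k j` is the value of `h k` if `h 0 = e j`; the exponent `r k` is chosen from `V k (k / 2)`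
  let V : ℕ → ℕ → H := fun k => Nat.rec e
    (fun k v j => root (ex (a⁻¹ * v (k / 2))) (a⁻¹ * v j)) k
  let r : ℕ → ℕ := fun k => ex (a⁻¹ * V k (k / 2))
  have hVs : ∀ k j, V (k + 1) j = root (r k) (a⁻¹ * V k j) := fun k j => rfl
  refine ⟨r, fun k => hex_pos _, ?_⟩
  rintro ⟨h, hh⟩
  obtain ⟨j, hj⟩ := he (h 0)
  have hV : ∀ k, V k j = h k := by
    intro k
    induction k with
    | zero => exact hj
    | succ k ih =>
      rw [hVs]
      refine hroot _ (hex_pos _) _ _ ?_
      rw [ih, hh k, inv_mul_cancel_left]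
  have h1 : a⁻¹ * h (2 * j) = 1 := by
    by_contra hne
    have e1 : r (2 * j) = ex (a⁻¹ * h (2 * j)) := by
      change ex (a⁻¹ * V (2 * j) (2 * j / 2)) = _
      rw [Nat.mul_div_cancel_left j (by norm_num), hV]
    have h2 := hex _ hne (h (2 * j + 1))
    rw [← e1] at h2
    apply h2
    rw [hh (2 * j), inv_mul_cancel_left]
  have h2 : h (2 * j + 1) = 1 := by
    have h3 : h (2 * j + 1) ^ r (2 * j) = 1 := by
      have h4 := hh (2 * j)
      rw [h4, inv_mul_cancel_left] at h1
      exact h1
    exact huniq _ (hex_pos _) _ _ (h3.trans (one_pow _).symm)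
  have e1 : r (2 * j + 1) = ex (a⁻¹ * h (2 * j + 1)) := by
    change ex (a⁻¹ * V (2 * j + 1) ((2 * j + 1) / 2)) = _
    have h7 : (2 * j + 1) / 2 = j := by omega
    rw [h7]
    exact congrArg (fun z => ex (a⁻¹ * z)) (hV (2 * j + 1))
  have h5 : a⁻¹ * h (2 * j + 1) ≠ 1 := by
    rw [h2, mul_one]
    exact inv_ne_one.2 ha
  have h6 := hex _ h5 (h (2 * j + 1 + 1))
  rw [← e1] at h6
  apply h6
  rw [hh (2 * j + 1), inv_mul_cancel_left]

/-- residually root-rigid groups are root-rigid -/
theorem rootRigid_of_residual {H : Type u} [Group H]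
    (h : ∀ a : H, a ≠ 1 → ∃ (G : Type v) (_ : Group G) (f : H →* G), RootRigid G ∧ f a ≠ 1) :
    RootRigid H := by
  intro a ha
  obtain ⟨G, _, f, hG, hf⟩ := h a ha
  obtain ⟨r, hr, hn⟩ := hG (f a) hf
  refine ⟨r, hr, ?_⟩
  rintro ⟨g, hg⟩
  exact hn ⟨fun k => f (g k), fun k => by
    have := congrArg f (hg k)
    rwa [map_mul, map_pow] at this⟩

theorem dudley_int : HasDudleyNorm (Multiplicative ℤ) := by
  refine ⟨fun g => |((Multiplicative.toAdd g : ℤ) : ℝ)|, fun g h => ?_, fun g hg r hr => ?_⟩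
  · change |((Multiplicative.toAdd (g * h) : ℤ) : ℝ)| ≤ _
    rw [toAdd_mul, Int.cast_add]
    exact abs_add_le _ _
  · have h1 : Multiplicative.toAdd g ≠ 0 := by
      intro h
      exact hg (by rw [← toAdd_eq_zero]; exact h)
    have h2 : (1 : ℝ) ≤ |((Multiplicative.toAdd g : ℤ) : ℝ)| := by
      have := Int.one_le_abs h1
      exact_mod_cast this
    have h3 : (1 : ℝ) ≤ r := by exact_mod_cast hr
    have e : |((Multiplicative.toAdd (g ^ r) : ℤ) : ℝ)| =
        r * |((Multiplicative.toAdd g : ℤ) : ℝ)| := by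
      rw [toAdd_pow, nsmul_eq_mul, Int.cast_mul, abs_mul, Int.cast_natCast, Nat.abs_cast]
    change (r : ℝ) ≤ |((Multiplicative.toAdd (g ^ r) : ℤ) : ℝ)| ∧
      |((Multiplicative.toAdd g : ℤ) : ℝ)| ≤ |((Multiplicative.toAdd (g ^ r) : ℤ) : ℝ)|
    rw [e]
    constructor <;> nlinarith

/-- free groups of any rank, with the word length -/
theorem dudley_free (α : Type u) : HasDudleyNorm (FreeGroup α) := by
  classical
  refine ⟨fun g => (g.norm : ℝ), fun g h => ?_, fun g hg r hr => ?_⟩
  · change ((g * h).norm : ℝ) ≤ (g.norm : ℝ) + (h.norm : ℝ)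
    exact_mod_cast FreeGroup.norm_mul_le g h
  · have hlen : ∀ k : ℕ, 0 < k → (g ^ k).norm =
        (FreeGroup.reduceCyclically.conjugator g.toWord).length +
          (k * (FreeGroup.reduceCyclically g.toWord).length +
            (FreeGroup.reduceCyclically.conjugator g.toWord).length) := by
      intro k hk
      rw [FreeGroup.norm, FreeGroup.toWord_pow,
        FreeGroup.reduceCyclically.reduce_flatten_replicate FreeGroup.isReduced_toWord,
        if_neg hk.ne']
      simp
    have hcyc : 0 < (FreeGroup.reduceCyclically g.toWord).length := by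
      rw [List.length_pos_iff]
      intro h0
      apply hg
      have h1 := FreeGroup.reduceCyclically.conj_conjugator_reduceCyclically g.toWord
      rw [h0, List.append_nil] at h1
      have h2 := congrArg FreeGroup.mk h1
      rw [FreeGroup.mk_toWord, ← FreeGroup.mul_mk, ← FreeGroup.inv_mk, mul_inv_cancel] at h2
      exact h2.symm
    have h1 := hlen 1 one_pos
    rw [pow_one] at h1
    have h2 := hlen r hr
    have h3 : r ≤ (g ^ r).norm := by
      rw [h2]
      nlinarith
    have h4 : g.norm ≤ (g ^ r).norm := by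
      rw [h1, h2]
      nlinarith
    change (r : ℝ) ≤ ((g ^ r).norm : ℝ) ∧ (g.norm : ℝ) ≤ ((g ^ r).norm : ℝ)
    exact ⟨by exact_mod_cast h3, by exact_mod_cast h4⟩

end Pool.Agent.N235.DH
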