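import Pool.Agent.N235.DH.Flow
import Pool.Agent.N235.DH.Alg

/-!
# Homomorphisms of the group of Hamiltonian homeomorphisms to root-rigid groups, and homogeneous
quasimorphisms with isolated value `0`
-/

set_option autoImplicit false

open Set Filter Topology Function
open Pool.Agent.Y453.HB
open Pool.Agent.Y309.HB

namespace Pool.Agent.N235.DH

universe u

variable {n : ℕ}

theorem HK_mem {K : Set (E n)} (hK : IsCompact K) (hKQ : K ⊆ {p : E n | Q p < 1})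
    {φ : E n ≃ₜ E n} (h : φ ∈ HK n K) : φ ∈ HamBar n :=
  Subgroup.subset_closure (HK_hamBar hK hKQ h)

theorem isHam_mem {φ : E n ≃ₜ E n} (h : IsHam φ) : φ ∈ HamBar n :=
  Subgroup.subset_closure (ham_mem h)

/-! ### homomorphisms -/

section

variable {H : Type u} [Group H] (hH : RootRigid H) (c : HamBar n →* H)

include hH

/-- the topological argument -/
theorem const_one {K : Set (E n)} (hK : IsCompact K) (hKQ : K ⊆ {p : E n | Q p < 1}) (a : H)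
    (x : ℕ → (E n ≃ₜ E n)) (hx : ∀ i, x i ∈ HK n K) (hx1 : UConv x 1)
    (hc : ∀ i, ∀ h : x i ∈ HamBar n, c ⟨x i, h⟩ = a) : a = 1 := by
  by_contra ha
  obtain ⟨r, -, hr⟩ := hH a ha
  obtain ⟨i, y, hy, hyx⟩ := key hK x hx hx1 fun k _ => r k
  apply hr
  refine ⟨fun k => c ⟨y k, HK_mem hK hKQ (hy k)⟩, fun k => ?_⟩
  have e : (⟨y k, HK_mem hK hKQ (hy k)⟩ : HamBar n) =
      ⟨x (i k), HK_mem hK hKQ (hx (i k))⟩ * ⟨y (k + 1), HK_mem hK hKQ (hy (k + 1))⟩ ^ r k :=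
    Subtype.ext (hyx k)
  change c ⟨y k, HK_mem hK hKQ (hy k)⟩ = _
  rw [e, map_mul, map_pow, hc]

/-- autonomous flows -/
theorem aut_one {K : Set (E n)} {Φ : ℝ → (E n ≃ₜ E n)} (hΦ : OneParam K Φ)
    (t : ℝ) (h : Φ t ∈ HamBar n) : c ⟨Φ t, h⟩ = 1 := by
  by_contra ha
  obtain ⟨r, hrpos, hr⟩ := hH _ ha
  have hmem : ∀ s, Φ s ∈ HamBar n := fun s => isHam_mem (hΦ.ham s)
  have hzero : Φ 0 = 1 := by
    have h3 := hΦ.add 0 0
    rw [add_zero] at h3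
    exact (mul_eq_left (a := Φ 0)).1 h3.symm
  have hpow : ∀ (m : ℕ) (s : ℝ), Φ (m * s) = Φ s ^ m := by
    intro m s
    induction m with
    | zero => simp [hzero]
    | succ m ih => rw [pow_succ, ← ih, ← hΦ.add]; congr 1; push_cast; ring
  let T : ℕ → ℝ := fun k => Nat.rec 0 (fun k s => (s - t) / r k) k
  have hT : ∀ k, T k = t + r k * T (k + 1) := by
    intro k
    have h4 : T (k + 1) = (T k - t) / r k := rfl
    have h5 : (r k : ℝ) ≠ 0 := by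
      have := hrpos k
      positivity
    rw [h4]
    field_simp
    ring
  apply hr
  refine ⟨fun k => c ⟨Φ (T k), hmem _⟩, fun k => ?_⟩
  have e : (⟨Φ (T k), hmem _⟩ : HamBar n) = ⟨Φ t, h⟩ * ⟨Φ (T (k + 1)), hmem _⟩ ^ r k := by
    apply Subtype.ext
    change Φ (T k) = Φ t * Φ (T (k + 1)) ^ r k
    rw [← hpow, ← hΦ.add, ← hT]
  change c ⟨Φ (T k), hmem _⟩ = _
  rw [e, map_mul, map_pow]

theorem list_one {K : Set (E n)} (l : List (ℝ → (E n ≃ₜ E n))) (hl : ∀ Φ ∈ l, OneParam K Φ) :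
    ∀ h : (l.map fun Φ => Φ 1).prod ∈ HamBar n, c ⟨(l.map fun Φ => Φ 1).prod, h⟩ = 1 := by
  induction l with
  | nil => exact fun _ => map_one c
  | cons Ψ l ih =>
    intro hw
    have hl' : ∀ Φ ∈ l, OneParam K Φ := fun Φ hΦ => hl Φ (List.mem_cons_of_mem _ hΦ)
    have h2 := hl Ψ List.mem_cons_self
    have hw1 : Ψ 1 ∈ HamBar n := isHam_mem (h2.ham 1)
    have hw2 : (l.map fun Φ => Φ 1).prod ∈ HamBar n := isHam_mem (path_mem l hl' 1).1
    have e : (⟨((Ψ :: l).map fun Φ : ℝ → (E n ≃ₜ E n) => Φ 1).prod, hw⟩ : HamBar n) =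
        ⟨Ψ 1, hw1⟩ * ⟨(l.map fun Φ => Φ 1).prod, hw2⟩ := by
      apply Subtype.ext
      have e1 : ((Ψ :: l).map fun Φ : ℝ → (E n ≃ₜ E n) => Φ 1).prod =
          Ψ 1 * (l.map fun Φ => Φ 1).prod := by
        rw [List.map_cons, List.prod_cons]
      exact e1
    rw [e, map_mul, ih hl' hw2, aut_one hH c h2 _ hw1, one_mul]

/-- Hamiltonian diffeomorphisms -/
theorem ham_one {v : E n ≃ₜ E n} (hv : IsHam v) (h : v ∈ HamBar n) : c ⟨v, h⟩ = 1 := by
  obtain ⟨K, hK, hKQ, hvs, w, hwv, hw⟩ := ham_approx hv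
  choose l hl1 hl2 using hw
  have w1 : ∀ m, IsHam (w m) := fun m => by rw [hl2]; exact (path_mem _ (hl1 m) 1).1
  have w2 : ∀ m x, x ∉ K → w m x = x := fun m => by rw [hl2]; exact (path_mem _ (hl1 m) 1).2
  have w3 : ∀ m, ∀ hw : w m ∈ HamBar n, c ⟨w m, hw⟩ = 1 := by
    intro m hw
    have e : (⟨w m, hw⟩ : HamBar n) =
        ⟨((l m).map fun Φ => Φ 1).prod, by rw [← hl2]; exact hw⟩ := Subtype.ext (hl2 m)
    rw [e]
    exact list_one hH c (l m) (hl1 m) _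
  refine const_one hH c hK hKQ _ (fun m => (w m)⁻¹ * v) (fun m => ?_) ?_ fun m hm => ?_
  · exact HK_mul hK (HK_inv hK (HK_ham (w1 m) (w2 m))) (HK_ham hv hvs)
  · have h7 := uc_mul (uc_inv hwv) (uconv_const hK hvs)
    rwa [inv_mul_cancel] at h7
  · have e : (⟨(w m)⁻¹ * v, hm⟩ : HamBar n) = ⟨w m, isHam_mem (w1 m)⟩⁻¹ * ⟨v, h⟩ := rfl
    rw [e, map_mul, map_inv, w3, inv_one, one_mul]

/-- **Homomorphisms to root-rigid groups are trivial.** -/
theorem hom_trivial (φ : HamBar n) : c φ = 1 := by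
  obtain ⟨φ, hφ⟩ := φ
  have hφ' := (mem_iff Pool.Agent.Y907.HB.mul Pool.Agent.Y510.HB.inv uc).1 hφ
  obtain ⟨K, hK, hKQ, h1, u, h2, h3, h4⟩ := hφ'
  have hu := uconv_of uc hK h1 h4
  refine const_one hH c hK hKQ _ (fun m => (u m)⁻¹ * φ) (fun m => ?_) ?_ fun m hm => ?_
  · exact HK_mul hK (HK_inv hK (HK_ham (h3 m) (h2 m))) ⟨h1, u, h2, h3, h4⟩
  · have h7 := uc_mul (uc_inv hu) (uconv_const hK h1)
    rwa [inv_mul_cancel] at h7
  · have e : (⟨(u m)⁻¹ * φ, hm⟩ : HamBar n) = ⟨u m, isHam_mem (h3 m)⟩⁻¹ * ⟨φ, hφ⟩ := rfl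
    rw [e, map_mul, map_inv, ham_one hH c (h3 m), inv_one, one_mul]

end

/-! ### quasimorphisms -/

section

variable (q : HamBar n → ℝ) (D δ : ℝ)

/-- a homogeneous quasimorphism of defect at most `D` whose nonzero values have absolute value at
least `δ` -/
structure GapQM (q : HamBar n → ℝ) (D δ : ℝ) : Prop where
  pos : 0 < δ
  bounded : ∀ φ ψ, |q (φ * ψ) - q φ - q ψ| ≤ D
  pow : ∀ φ (m : ℕ), q (φ ^ m) = m * q φ
  gap : ∀ φ, q φ = 0 ∨ δ ≤ |q φ|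

variable {q D δ} (hq : GapQM q D δ)

include hq

theorem GapQM.one : q 1 = 0 := by
  have := hq.pow 1 0
  simpa using this

theorem GapQM.D_nonneg : 0 ≤ D := (abs_nonneg _).trans (hq.bounded 1 1)

theorem GapQM.small {φ : HamBar n} (h : |q φ| < δ) : q φ = 0 :=
  (hq.gap φ).resolve_right (not_le.2 h)

/-- no sequence converging to `1` has all its values larger than the defect -/
theorem GapQM.bound {K : Set (E n)} (hK : IsCompact K) (hKQ : K ⊆ {p : E n | Q p < 1})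
    (x : ℕ → (E n ≃ₜ E n)) (hx : ∀ i, x i ∈ HK n K) (hx1 : UConv x 1) :
    ∃ i, |q ⟨x i, HK_mem hK hKQ (hx i)⟩| ≤ D := by
  by_contra hcon
  push Not at hcon
  have hδ := hq.pos
  have hD := hq.D_nonneg
  set X : ℕ → ℝ := fun i => |q ⟨x i, HK_mem hK hKQ (hx i)⟩| with hX
  obtain ⟨i, y, hy, hyx⟩ := key hK x hx hx1 fun _ i => ⌈2 + (X i + D) / δ⌉₊
  set Y : ℕ → ℝ := fun k => q ⟨y k, HK_mem hK hKQ (hy k)⟩ with hY
  have hrec : ∀ k, |Y k - q ⟨x (i k), HK_mem hK hKQ (hx _)⟩ -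
      (⌈2 + (X (i k) + D) / δ⌉₊ : ℝ) * Y (k + 1)| ≤ D := by
    intro k
    have e : (⟨y k, HK_mem hK hKQ (hy k)⟩ : HamBar n) =
        ⟨x (i k), HK_mem hK hKQ (hx (i k))⟩ *
          ⟨y (k + 1), HK_mem hK hKQ (hy (k + 1))⟩ ^ ⌈2 + (X (i k) + D) / δ⌉₊ :=
      Subtype.ext (hyx k)
    have h1 := hq.bounded ⟨x (i k), HK_mem hK hKQ (hx (i k))⟩
      (⟨y (k + 1), HK_mem hK hKQ (hy (k + 1))⟩ ^ ⌈2 + (X (i k) + D) / δ⌉₊)
    rw [← e, hq.pow] at h1
    exact h1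
  have hdouble : ∀ k, δ ≤ |Y (k + 1)| → 2 * |Y (k + 1)| ≤ |Y k| := by
    intro k hk
    have h1 := hrec k
    have h2 := Nat.le_ceil (2 + (X (i k) + D) / δ)
    have h3 : (2 + (X (i k) + D) / δ) * |Y (k + 1)| ≤
        (⌈2 + (X (i k) + D) / δ⌉₊ : ℝ) * |Y (k + 1)| :=
      mul_le_mul_of_nonneg_right h2 (abs_nonneg _)
    have h4 : (⌈2 + (X (i k) + D) / δ⌉₊ : ℝ) * |Y (k + 1)| ≤ |Y k| + X (i k) + D := by
      have h5 : (⌈2 + (X (i k) + D) / δ⌉₊ : ℝ) * |Y (k + 1)| =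
          |(⌈2 + (X (i k) + D) / δ⌉₊ : ℝ) * Y (k + 1)| := by
        rw [abs_mul, Nat.abs_cast]
      rw [h5]
      have h6 : (⌈2 + (X (i k) + D) / δ⌉₊ : ℝ) * Y (k + 1) =
          Y k - q ⟨x (i k), HK_mem hK hKQ (hx _)⟩ -
            (Y k - q ⟨x (i k), HK_mem hK hKQ (hx _)⟩ -
              (⌈2 + (X (i k) + D) / δ⌉₊ : ℝ) * Y (k + 1)) := by ring
      rw [h6]
      refine (abs_sub _ _).trans ?_
      refine add_le_add ((abs_sub _ _).trans le_rfl) h1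
    have h7 : X (i k) + D ≤ (X (i k) + D) / δ * |Y (k + 1)| := by
      have h8 : 0 ≤ X (i k) + D := add_nonneg (abs_nonneg _) hD
      calc X (i k) + D = (X (i k) + D) / δ * δ := by field_simp
        _ ≤ (X (i k) + D) / δ * |Y (k + 1)| := mul_le_mul_of_nonneg_left hk (by positivity)
    nlinarith
  have hdown : ∀ k, δ ≤ |Y k| → ∀ j ≤ k, 2 ^ j * δ ≤ |Y (k - j)| := by
    intro k hk j
    induction j with
    | zero => intro _; simpa using hk
    | succ j ih =>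
      intro hj
      have h1 := ih (by omega)
      have h2 : k - j = (k - (j + 1)) + 1 := by omega
      rw [h2] at h1
      have h3 : (1 : ℝ) ≤ 2 ^ j := one_le_pow₀ (by norm_num)
      have h4 := hdouble (k - (j + 1)) (by nlinarith)
      rw [pow_succ]
      linarith
  have hz : ∀ k, |Y 0| < 2 ^ k * δ → Y k = 0 := by
    intro k hk
    refine (hq.gap _).resolve_right fun h => ?_
    have h1 := hdown k h k le_rfl
    rw [Nat.sub_self] at h1
    linarith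
  obtain ⟨k, hk⟩ := pow_unbounded_of_one_lt (|Y 0| / δ) (one_lt_two (α := ℝ))
  rw [div_lt_iff₀ hδ] at hk
  have h1 := hz k hk
  have h2 := hz (k + 1) (hk.trans_le (mul_le_mul_of_nonneg_right
    (pow_le_pow_right₀ (by norm_num) (by omega)) hδ.le))
  have h3 := hrec k
  rw [h1, h2, mul_zero, sub_zero, zero_sub, abs_neg] at h3
  exact absurd h3 (not_le.2 (hcon (i k)))

theorem GapQM.eventually_zero {K : Set (E n)} (hK : IsCompact K) (hKQ : K ⊆ {p : E n | Q p < 1})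
    (x : ℕ → (E n ≃ₜ E n)) (hx : ∀ i, x i ∈ HK n K) (hx1 : UConv x 1) :
    ∃ i, q ⟨x i, HK_mem hK hKQ (hx i)⟩ = 0 := by
  by_contra hcon
  push Not at hcon
  obtain ⟨m, hm⟩ := exists_nat_gt (D / δ)
  have h1 := uc_pow hx1 m
  rw [one_pow] at h1
  obtain ⟨i, hi⟩ := hq.bound hK hKQ (fun k => x k ^ m) (fun k => HK_pow hK (hx k) m) h1
  have e : (⟨x i ^ m, HK_mem hK hKQ (HK_pow hK (hx i) m)⟩ : HamBar n) =
      ⟨x i, HK_mem hK hKQ (hx i)⟩ ^ m := rfl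
  have h2 : |q ((⟨x i, HK_mem hK hKQ (hx i)⟩ : HamBar n) ^ m)| ≤ D := hi
  rw [hq.pow, abs_mul, Nat.abs_cast] at h2
  have h3 := (hq.gap ⟨x i, HK_mem hK hKQ (hx i)⟩).resolve_left (hcon i)
  rw [div_lt_iff₀ hq.pos] at hm
  have h4 : (m : ℝ) * δ ≤ m * |q ⟨x i, HK_mem hK hKQ (hx i)⟩| :=
    mul_le_mul_of_nonneg_left h3 (by positivity)
  linarith

/-- sequential continuity -/
theorem GapQM.close {K : Set (E n)} (hK : IsCompact K) (hKQ : K ⊆ {p : E n | Q p < 1})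
    (u : ℕ → (E n ≃ₜ E n)) (hu : ∀ i, u i ∈ HK n K) {φ : E n ≃ₜ E n} (hφ : φ ∈ HK n K)
    (huφ : UConv u φ) : ∃ i, |q ⟨u i, HK_mem hK hKQ (hu i)⟩ - q ⟨φ, HK_mem hK hKQ hφ⟩| < δ := by
  obtain ⟨m, hm⟩ := exists_nat_gt (D / δ)
  have hm0 : (0 : ℝ) < m := (div_nonneg hq.D_nonneg hq.pos.le).trans_lt hm
  rw [div_lt_iff₀ hq.pos] at hm
  have h1 := uc_mul (uc_pow huφ m) (uc_inv (uc_pow (uconv_const hK hφ.1) m))
  rw [mul_inv_cancel] at h1
  obtain ⟨i, hi⟩ := hq.eventually_zero hK hKQ (fun k => u k ^ m * (φ ^ m)⁻¹)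
    (fun k => HK_mul hK (HK_pow hK (hu k) m) (HK_inv hK (HK_pow hK hφ m))) h1
  refine ⟨i, ?_⟩
  set U : HamBar n := ⟨u i, HK_mem hK hKQ (hu i)⟩ with hU
  set F : HamBar n := ⟨φ, HK_mem hK hKQ hφ⟩ with hF
  have h2 : q (U ^ m * (F ^ m)⁻¹) = 0 := hi
  have h3 := hq.bounded (U ^ m * (F ^ m)⁻¹) (F ^ m)
  rw [inv_mul_cancel_right, h2, sub_zero, hq.pow, hq.pow, ← mul_sub, abs_mul, Nat.abs_cast] at h3
  by_contra h4
  have h5 : (m : ℝ) * δ ≤ m * |q U - q F| :=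
    mul_le_mul_of_nonneg_left (not_lt.1 h4) hm0.le
  linarith

/-- values at the end of a path -/
theorem GapQM.path {K : Set (E n)} (hK : IsCompact K) (hKQ : K ⊆ {p : E n | Q p < 1})
    (l : List (ℝ → (E n ≃ₜ E n))) (hl : ∀ Φ ∈ l, OneParam K Φ) (t : ℝ) :
    q ⟨(l.map fun Φ => Φ t).prod, isHam_mem (path_mem l hl t).1⟩ = 0 := by
  have hmem : ∀ t, (l.map fun Φ => Φ t).prod ∈ HK n K := fun t =>
    HK_ham (path_mem l hl t).1 (path_mem l hl t).2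
  let Z : Set ℝ := {t | q ⟨(l.map fun Φ => Φ t).prod, isHam_mem (path_mem l hl t).1⟩ = 0}
  have hclosed : IsClosed Z := by
    apply IsSeqClosed.isClosed
    intro t s ht hts
    obtain ⟨i, hi⟩ := hq.close hK hKQ (fun k => (l.map fun Φ => Φ (t k)).prod)
      (fun k => hmem (t k)) (hmem s) (path_cont hK l hl t s hts)
    have h1 : q ⟨(l.map fun Φ => Φ (t i)).prod, isHam_mem (path_mem l hl (t i)).1⟩ = 0 := ht i
    apply hq.small
    rw [h1, zero_sub, abs_neg] at hi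
    exact hi
  have hopen : IsOpen Z := by
    rw [← isClosed_compl_iff]
    apply IsSeqClosed.isClosed
    intro t s ht hts hs
    obtain ⟨i, hi⟩ := hq.close hK hKQ (fun k => (l.map fun Φ => Φ (t k)).prod)
      (fun k => hmem (t k)) (hmem s) (path_cont hK l hl t s hts)
    have h1 : q ⟨(l.map fun Φ => Φ s).prod, isHam_mem (path_mem l hl s).1⟩ = 0 := hs
    apply ht i
    apply hq.small
    rw [h1, sub_zero] at hi
    exact hi
  have h0 : (0 : ℝ) ∈ Z := by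
    have h1 : (l.map fun Φ => Φ 0).prod = (1 : E n ≃ₜ E n) := by
      clear hmem hclosed hopen Z
      induction l with
      | nil => rfl
      | cons Ψ l ih =>
        rw [List.map_cons, List.prod_cons, ih fun Φ hΦ => hl Φ (List.mem_cons_of_mem _ hΦ), mul_one]
        have h3 := (hl Ψ List.mem_cons_self).add 0 0
        rw [add_zero] at h3
        exact (mul_eq_left (a := Ψ 0)).1 h3.symm
    have e : (⟨(l.map fun Φ => Φ 0).prod, isHam_mem (path_mem l hl 0).1⟩ : HamBar n) = 1 :=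
      Subtype.ext h1
    change q _ = 0
    rw [e]
    exact hq.one
  have huniv : Z = univ := IsClopen.eq_univ ⟨hclosed, hopen⟩ ⟨0, h0⟩
  have : t ∈ Z := by rw [huniv]; exact mem_univ _
  exact this

theorem GapQM.ham {v : E n ≃ₜ E n} (hv : IsHam v) : q ⟨v, isHam_mem hv⟩ = 0 := by
  obtain ⟨K, hK, hKQ, hvs, w, hwv, hw⟩ := ham_approx hv
  choose l hl1 hl2 using hw
  have hwHK : ∀ m, w m ∈ HK n K := fun m => by
    rw [hl2]
    exact HK_ham (path_mem _ (hl1 m) 1).1 (path_mem _ (hl1 m) 1).2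
  obtain ⟨i, hi⟩ := hq.close hK hKQ w hwHK (HK_ham hv hvs) hwv
  have e : (⟨w i, HK_mem hK hKQ (hwHK i)⟩ : HamBar n) =
      ⟨((l i).map fun Φ => Φ 1).prod, isHam_mem (path_mem _ (hl1 i) 1).1⟩ := Subtype.ext (hl2 i)
  rw [e, hq.path hK hKQ (l i) (hl1 i) 1, zero_sub, abs_neg] at hi
  exact hq.small hi

/-- **Homogeneous quasimorphisms for which `0` is an isolated value are zero.** -/
theorem GapQM.zero (φ : HamBar n) : q φ = 0 := by
  obtain ⟨φ, hφ⟩ := φ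
  have hφ' := (mem_iff Pool.Agent.Y907.HB.mul Pool.Agent.Y510.HB.inv uc).1 hφ
  obtain ⟨K, hK, hKQ, h1, u, h2, h3, h4⟩ := hφ'
  have hu := uconv_of uc hK h1 h4
  obtain ⟨i, hi⟩ := hq.close hK hKQ u (fun k => HK_ham (h3 k) (h2 k)) ⟨h1, u, h2, h3, h4⟩ hu
  have h5 : q ⟨u i, HK_mem hK hKQ (HK_ham (h3 i) (h2 i))⟩ = 0 := hq.ham (h3 i)
  rw [h5, zero_sub, abs_neg] at hi
  exact hq.small hi

end

end Pool.Agent.N235.DH
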