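import Pool.Agent.N235.DH.Key
import Pool.Agent.R773.HN.Fin

/-!
# Hamiltonian diffeomorphisms as limits of products of autonomous ones
-/

set_option autoImplicit false

open Set Filter Topology Function
open Pool.Agent.Y453.HB
open Pool.Agent.Y309.HB

namespace Pool.Agent.N235.DH

variable {n : ℕ}

open Pool.Agent.R773.HN.FlowAux Pool.Agent.GR.Flow

/-- one-parameter groups of Hamiltonian diffeomorphisms supported in `K` -/
structure OneParam (K : Set (E n)) (Φ : ℝ → (E n ≃ₜ E n)) : Prop where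
  ham : ∀ t, IsHam (Φ t)
  supp : ∀ t x, x ∉ K → Φ t x = x
  add : ∀ s t, Φ (s + t) = Φ s * Φ t
  lip : ∃ M : ℝ, ∀ s t x, dist (Φ s x) (Φ t x) ≤ M * |s - t|

/-- the flow of an autonomous Hamiltonian is a one-parameter group of Hamiltonian
diffeomorphisms -/
theorem one_param {h : E n → ℝ} (hh : ContDiff ℝ ((⊤ : ℕ∞) : WithTop ℕ∞) h)
    {K : Set (E n)} (hK : IsCompact K) (hKQ : K ⊆ {p : E n | Q p < 1})
    (h0 : ∀ x, x ∉ K → h x = 0) :
    ∃ Φ : ℝ → (E n ≃ₜ E n), OneParam K Φ ∧ (∀ x, Φ 0 x = x) ∧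
      ∀ t x, HasDerivAt (fun s => Φ s x) (XH h (Φ t x)) t := by
  have hY1 := contDiff_XH hh
  have hsupp : HasCompactSupport (XH h) := HasCompactSupport.intro hK fun x hx => XH_off hK h0 hx
  obtain ⟨C, hC⟩ := ContDiff.lipschitzWith_of_hasCompactSupport hsupp hY1 one_ne_zero
  obtain ⟨M, hM⟩ := hY1.continuous.bounded_above_of_compact_support hsupp
  have hM' : ∀ x, ‖XH h x‖ ≤ (Real.toNNReal M : ℝ) := fun x =>
    (hM x).trans (Real.le_coe_toNNReal M)
  choose γ hγ0 hγ using fun x => exists_solution hC hM' x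
  have hfl : IsFlowOf (XH h) (fun t x => γ x t) := ⟨hγ0, fun x t => hγ x t⟩
  have hcd : ContDiff ℝ ((1 : ℕ) : WithTop ℕ∞) (fun p : ℝ × E n => γ p.2 p.1) :=
    contDiff_flow (X := (⟨XH h, hY1.continuous⟩ : C(E n, E n))) one_ne_zero
      (by exact_mod_cast hY1) hC hfl
  have hcont : ∀ t : ℝ, Continuous fun x => γ x t := fun t =>
    hcd.continuous.comp (by fun_prop : Continuous fun x : E n => ((t, x) : ℝ × E n))
  let Φ : ℝ → (E n ≃ₜ E n) := fun t =>
    { toFun := fun x => γ x t
      invFun := fun x => γ x (-t)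
      left_inv := fun x => by
        have h1 := hfl.add hC (-t) t x
        rw [neg_add_cancel] at h1
        exact h1.symm.trans (hγ0 x)
      right_inv := fun x => by
        have h1 := hfl.add hC t (-t) x
        rw [add_neg_cancel] at h1
        exact h1.symm.trans (hγ0 x)
      continuous_toFun := hcont t
      continuous_invFun := hcont (-t) }
  have hd : ∀ (t : ℝ) (x : E n), HasDerivAt (fun s => γ x s) (XH h (γ x t)) t := fun t x => hγ x t
  refine ⟨Φ, ⟨fun t => ?_, fun t x hx => ?_, fun s t => ?_, Real.toNNReal M, fun s t x => ?_⟩,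
    hγ0, hd⟩
  · refine ⟨fun _ x => t * h x, ?_, ⟨K, hK, hKQ, fun _ x hx => by
        change t * h x = 0
        rw [h0 x hx, mul_zero]⟩,
      fun s x => γ x (t * s), fun x => by
        change γ x (t * 0) = x
        rw [mul_zero]; exact hγ0 x, fun s x => ?_,
      fun x => by
        change γ x t = γ x (t * 1)
        rw [mul_one]⟩
    · exact (contDiff_const.mul hh).comp contDiff_snd
    · have h1 := (hd (t * s) x).scomp s ((hasDerivAt_id s).const_mul t)
      rw [mul_one] at h1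
      have e : XH (fun x => t * h x) (γ x (t * s)) = t • XH h (γ x (t * s)) := by
        have hdiff : DifferentiableAt ℝ h (γ x (t * s)) :=
          (hh.differentiable (by simp)) _
        unfold XH
        rw [fderiv_const_mul hdiff]
        ext i
        · simp
        · simp
      rw [e]
      exact h1
  · have h1 : (fun t => γ x t) = fun _ => x := by
      refine ODE_solution_unique_univ (v := fun _ => XH h) (s := fun _ => univ) (K := C) (t₀ := 0)
        (fun t => hC.lipschitzOnWith) (fun t => ⟨hγ x t, trivial⟩) (fun t => ⟨?_, trivial⟩)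
        (hγ0 x)
      rw [XH_off hK h0 hx]
      exact hasDerivAt_const t x
    exact congrFun h1 t
  · refine Homeomorph.ext fun x => ?_
    exact hfl.add hC s t x
  · rw [dist_eq_norm, ← Real.norm_eq_abs]
    exact convex_univ.norm_image_sub_le_of_norm_hasDerivWithin_le
      (f := fun s => γ x s) (f' := fun s => XH h (γ x s))
      (fun s _ => (hd s x).hasDerivWithinAt) (fun s _ => hM' _) (mem_univ t) (mem_univ s)

/-- the linear change of time -/
theorem OneParam.scale {K : Set (E n)} {Φ : ℝ → (E n ≃ₜ E n)} (h : OneParam K Φ) (a : ℝ) :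
    OneParam K (fun t => Φ (t * a)) := by
  obtain ⟨M, hM⟩ := h.lip
  refine ⟨fun t => h.ham _, fun t => h.supp _, fun s t => ?_, M * |a|, fun s t x => ?_⟩
  · rw [add_mul, h.add]
  · refine (hM _ _ x).trans_eq ?_
    rw [← sub_mul, abs_mul]
    ring

/-- a Hamiltonian diffeomorphism is a uniform limit of products of autonomous ones supported in a
fixed compact set -/
theorem ham_approx {v : E n ≃ₜ E n} (hv : IsHam v) :
    ∃ K : Set (E n), IsCompact K ∧ K ⊆ {p : E n | Q p < 1} ∧ (∀ x, x ∉ K → v x = x) ∧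
      ∃ w : ℕ → (E n ≃ₜ E n), UConv w v ∧ ∀ m, ∃ l : List (ℝ → (E n ≃ₜ E n)),
        (∀ Φ ∈ l, OneParam K Φ) ∧ w m = (l.map fun Φ => Φ 1).prod := by
  obtain ⟨H', hH1, ⟨K, hK, hKQ, hoff⟩, ψ, hψ0, hψ, hψ1⟩ := id hv
  have hsl : ∀ t, ContDiff ℝ ((⊤ : ℕ∞) : WithTop ℕ∞) (H' t) := fun t =>
    hH1.comp (contDiff_const.prodMk contDiff_id)
  choose Φ P1 P4 P5 using fun t => one_param (hsl t) hK hKQ (hoff t)
  obtain ⟨C, hC0, hC1, hC2, hC3⟩ := Pool.Agent.R773.HN.bd n H' hH1 K hK hoff
  have happ := Pool.Agent.R773.HN.step (E n) 1 (fun _ t => XH (H' t)) C hC0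
    (fun _ t ht x => hC1 t ht x) (fun _ t ht x y => hC2 t ht x y)
    (fun _ s hs t ht x => hC3 s hs t ht x) ψ hψ0
    (fun t _ x => by
      rw [Finset.univ_unique, Finset.sum_singleton]
      exact hψ t x)
    (fun _ s t => Φ t s)
    (fun _ s _ t _ x => ⟨fun τ => Φ t (s * τ) x, by
        change Φ t (s * 0) x = x
        rw [mul_zero]; exact P4 t x, by
        change Φ t (s * 1) x = Φ t s x
        rw [mul_one],
      fun τ => by
        have h1 := (P5 t (s * τ) x).scomp τ ((hasDerivAt_id τ).const_mul s)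
        rw [mul_one] at h1
        exact h1⟩)
  have hl : ∀ m : ℕ, ∃ l : List (ℝ → (E n ≃ₜ E n)), (∀ Φ ∈ l, OneParam K Φ) ∧
      ∀ x, dist ((l.map fun Φ => Φ 1).prod x) (v x) < 1 / ((m : ℝ) + 1) := by
    intro m
    obtain ⟨l, -, hl2⟩ := happ (1 / ((m : ℝ) + 1)) (by positivity)
    refine ⟨l.map fun a => fun τ => Φ a.2.2 (τ * a.2.1), ?_, ?_⟩
    · intro Ψ hΨ
      obtain ⟨a, -, rfl⟩ := List.mem_map.1 hΨ
      exact (P1 a.2.2).scale a.2.1
    · intro x
      rw [dist_eq_norm, hψ1, List.map_map]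
      have e : ((fun Φ : ℝ → (E n ≃ₜ E n) => Φ 1) ∘ fun a : Fin 1 × ℝ × ℝ =>
          fun τ : ℝ => Φ a.2.2 (τ * a.2.1)) = fun a => Φ a.2.2 a.2.1 := by
        funext a
        change Φ a.2.2 (1 * a.2.1) = _
        rw [one_mul]
      rw [e]
      exact hl2 x
  choose l hl1 hl2 using hl
  have hsuppw : ∀ (l : List (ℝ → (E n ≃ₜ E n))), (∀ Φ ∈ l, OneParam K Φ) → ∀ x, x ∉ K →
      (l.map fun Φ => Φ 1).prod x = x := by
    intro l
    induction l with
    | nil => intro _ x _; rfl
    | cons Ψ l ih =>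
      intro h x hx
      rw [List.map_cons, List.prod_cons, mul_apply,
        ih (fun Φ hΦ => h Φ (List.mem_cons_of_mem _ hΦ)) x hx,
        (h Ψ List.mem_cons_self).supp _ _ hx]
  have h1 := tendsto_one_div_add_atTop_nhds_zero_nat (𝕜 := ℝ)
  have hunif : TendstoUniformly (fun (m : ℕ) (x : E n) => ((l m).map fun Φ => Φ 1).prod x)
      (fun x => v x) atTop := by
    rw [Metric.tendstoUniformly_iff]
    intro ε hε
    filter_upwards [h1.eventually (gt_mem_nhds hε)] with m hm x
    rw [dist_comm]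
    exact (hl2 m x).trans hm
  have hvs : ∀ x, x ∉ K → v x = x := by
    intro x hx
    have h5 := hunif.tendsto_at x
    have h6 : (fun m => ((l m).map fun Φ => Φ 1).prod x) = fun _ => x :=
      funext fun m => hsuppw (l m) (hl1 m) x hx
    rw [h6] at h5
    exact tendsto_nhds_unique h5 tendsto_const_nhds
  exact ⟨K, hK, hKQ, hvs, fun m => ((l m).map fun Φ => Φ 1).prod, uconv_of uc hK hvs hunif,
    fun m => ⟨l m, hl1 m, rfl⟩⟩

/-- products of one-parameter groups are paths -/
theorem path_mem {K : Set (E n)} (l : List (ℝ → (E n ≃ₜ E n))) (h : ∀ Φ ∈ l, OneParam K Φ)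
    (t : ℝ) : IsHam (l.map fun Φ => Φ t).prod ∧ ∀ x, x ∉ K → (l.map fun Φ => Φ t).prod x = x := by
  induction l with
  | nil => exact ⟨(Pool.Agent.Y510.HB.inv n).1, fun _ _ => rfl⟩
  | cons Ψ l ih =>
    have h1 := ih fun Φ hΦ => h Φ (List.mem_cons_of_mem _ hΦ)
    have h2 := h Ψ List.mem_cons_self
    rw [List.map_cons, List.prod_cons]
    refine ⟨Pool.Agent.Y907.HB.mul n _ _ (h2.ham t) h1.1, fun x hx => ?_⟩
    rw [mul_apply, h1.2 x hx, h2.supp _ _ hx]

theorem path_cont {K : Set (E n)} (hK : IsCompact K) (l : List (ℝ → (E n ≃ₜ E n)))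
    (h : ∀ Φ ∈ l, OneParam K Φ) (t : ℕ → ℝ) (s : ℝ) (ht : Tendsto t atTop (𝓝 s)) :
    UConv (fun k => (l.map fun Φ => Φ (t k)).prod) (l.map fun Φ => Φ s).prod := by
  induction l with
  | nil => exact uc_one
  | cons Ψ l ih =>
    have h1 := ih fun Φ hΦ => h Φ (List.mem_cons_of_mem _ hΦ)
    have h2 := h Ψ List.mem_cons_self
    simp only [List.map_cons, List.prod_cons]
    refine uc_mul (uconv_of uc hK (h2.supp s) ?_) h1
    obtain ⟨M, hM⟩ := h2.lip
    have h3 : Tendsto (fun k => M * |s - t k|) atTop (𝓝 0) := by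
      have h4 : Tendsto (fun k => M * |s - t k|) atTop (𝓝 (M * |s - s|)) :=
        (tendsto_const_nhds.mul ((tendsto_const_nhds.sub ht).abs))
      simpa using h4
    rw [Metric.tendstoUniformly_iff]
    intro ε hε
    filter_upwards [h3.eventually (gt_mem_nhds hε)] with k hk x
    exact (hM _ _ x).trans_lt hk

end Pool.Agent.N235.DH
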