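import Pool.Agent.Y453.HB.Fin

/-!
# Solving infinitely many equations in the group of Hamiltonian homeomorphisms
-/

set_option autoImplicit false

open Set Filter Topology Function
open Pool.Agent.Y453.HB
open Pool.Agent.Y309.HB

namespace Pool.Agent.N235.DH

variable {n : ℕ}

/-- the uniform limits, supported in `K`, of Hamiltonian diffeomorphisms supported in `K` -/
def HK (n : ℕ) (K : Set (E n)) : Set (E n ≃ₜ E n) :=
  {φ | (∀ x, x ∉ K → φ x = x) ∧ ∃ u : ℕ → (E n ≃ₜ E n), (∀ k, ∀ x, x ∉ K → u k x = x) ∧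
    (∀ k, IsHam (u k)) ∧ TendstoUniformly (fun (k : ℕ) (x : E n) => u k x) (fun x => φ x) atTop}

theorem HK_hamBar {K : Set (E n)} (hK : IsCompact K) (hKQ : K ⊆ {p : E n | Q p < 1})
    {φ : E n ≃ₜ E n} (h : φ ∈ HK n K) : φ ∈ hamBar n := by
  obtain ⟨h1, u, h2, h3, h4⟩ := h
  exact ⟨K, hK, hKQ, h1, u, h2, h3, h4⟩

theorem HK_ham {K : Set (E n)} {u : E n ≃ₜ E n} (hu : IsHam u) (h : ∀ x, x ∉ K → u x = x) :
    u ∈ HK n K := by
  refine ⟨h, fun _ => u, fun _ => h, fun _ => hu, ?_⟩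
  rw [Metric.tendstoUniformly_iff]
  intro ε hε
  exact Eventually.of_forall fun _ x => by rw [dist_self]; exact hε

theorem HK_one (K : Set (E n)) : (1 : E n ≃ₜ E n) ∈ HK n K :=
  HK_ham (Pool.Agent.Y510.HB.inv n).1 fun _ _ => rfl

theorem HK_mul {K : Set (E n)} (hK : IsCompact K) {φ ψ : E n ≃ₜ E n} (hφ : φ ∈ HK n K)
    (hψ : ψ ∈ HK n K) : φ * ψ ∈ HK n K := by
  obtain ⟨hK2, u, hu1, hu2, hu3⟩ := hφ
  obtain ⟨hL2, v, hv1, hv2, hv3⟩ := hψ
  refine ⟨fun x hx => ?_, fun k => u k * v k, fun k x hx => ?_,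
    fun k => Pool.Agent.Y907.HB.mul n _ _ (hu2 k) (hv2 k), ?_⟩
  · rw [mul_apply, hL2 x hx, hK2 x hx]
  · rw [mul_apply, hv1 k x hx, hu1 k x hx]
  · exact (uc_mul (uconv_of uc hK hK2 hu3) (uconv_of uc hK hL2 hv3)).1

theorem HK_inv {K : Set (E n)} (hK : IsCompact K) {φ : E n ≃ₜ E n} (hφ : φ ∈ HK n K) :
    φ⁻¹ ∈ HK n K := by
  obtain ⟨hK2, u, hu1, hu2, hu3⟩ := hφ
  refine ⟨fun x hx => ?_, fun k => (u k)⁻¹, fun k x hx => ?_,
    fun k => (Pool.Agent.Y510.HB.inv n).2 _ (hu2 k), ?_⟩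
  · have h1 := inv_apply_self φ x
    rwa [hK2 x hx] at h1
  · have h1 := inv_apply_self (u k) x
    rwa [hu1 k x hx] at h1
  · exact (uc_inv (uconv_of uc hK hK2 hu3)).1

theorem HK_pow {K : Set (E n)} (hK : IsCompact K) {φ : E n ≃ₜ E n} (hφ : φ ∈ HK n K) (m : ℕ) :
    φ ^ m ∈ HK n K := by
  induction m with
  | zero => rw [pow_zero]; exact HK_one K
  | succ m ih => rw [pow_succ]; exact HK_mul hK ih hφ

/-- `HK` is closed under uniform limits -/
theorem HK_closed {K : Set (E n)} {w : ℕ → (E n ≃ₜ E n)} {y : E n ≃ₜ E n}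
    (hw : ∀ m, w m ∈ HK n K) (hy : ∀ x, x ∉ K → y x = x)
    (h : TendstoUniformly (fun (k : ℕ) (x : E n) => w k x) (fun x => y x) atTop) :
    y ∈ HK n K := by
  have hv : ∀ m : ℕ, ∃ v : E n ≃ₜ E n, (∀ x, x ∉ K → v x = x) ∧ IsHam v ∧
      ∀ x, dist (w m x) (v x) < 1 / ((m : ℝ) + 1) := by
    intro m
    obtain ⟨-, u, hu1, hu2, hu3⟩ := hw m
    obtain ⟨k, hk⟩ := (Metric.tendstoUniformly_iff.1 hu3 (1 / ((m : ℝ) + 1)) (by positivity)).exists
    exact ⟨u k, hu1 k, hu2 k, hk⟩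
  choose v hv1 hv2 hv3 using hv
  refine ⟨hy, v, hv1, hv2, ?_⟩
  rw [Metric.tendstoUniformly_iff] at h ⊢
  intro ε hε
  have h1 := tendsto_one_div_add_atTop_nhds_zero_nat (𝕜 := ℝ)
  filter_upwards [h (ε / 2) (by positivity), h1.eventually (gt_mem_nhds (half_pos hε))]
    with m hm hm2 x
  calc dist (y x) (v m x) ≤ dist (y x) (w m x) + dist (w m x) (v m x) := dist_triangle _ _ _
    _ < ε / 2 + ε / 2 := add_lt_add (hm x) ((hv3 m x).trans hm2)
    _ = ε := by ring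

/-- a Cauchy sequence of homeomorphisms has a limit -/
theorem exists_limit {K : Set (E n)} (hK : IsCompact K) (w : ℕ → (E n ≃ₜ E n))
    (hw : ∀ m, ∀ x, x ∉ K → w m x = x) (m₀ : ℕ)
    (h1 : ∀ m, m₀ ≤ m → ∀ x, dist (w (m + 1) x) (w m x) ≤ (1 / 2) ^ m)
    (h2 : ∀ m, m₀ ≤ m → ∀ x, dist ((w (m + 1))⁻¹ x) ((w m)⁻¹ x) ≤ (1 / 2) ^ m) :
    ∃ y : E n ≃ₜ E n, (∀ x, x ∉ K → y x = x) ∧ UConv w y := by
  -- general statement for functions
  have gen : ∀ f : ℕ → E n → E n, (∀ m, m₀ ≤ m → ∀ x, dist (f (m + 1) x) (f m x) ≤ (1 / 2) ^ m) →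
      ∃ F : E n → E n, TendstoUniformly f F atTop := by
    intro f hf
    have hc : ∀ x, CauchySeq fun m => f (m + m₀) x := by
      intro x
      refine cauchySeq_of_le_geometric (1 / 2) 1 (by norm_num) fun m => ?_
      rw [dist_comm, one_mul, show m + 1 + m₀ = (m + m₀) + 1 by ring]
      refine (hf (m + m₀) (by omega) x).trans ?_
      exact pow_le_pow_of_le_one (by norm_num) (by norm_num) (by omega)
    choose F hF using fun x => cauchySeq_tendsto_of_complete (hc x)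
    refine ⟨F, ?_⟩
    rw [Metric.tendstoUniformly_iff]
    intro ε hε
    have h3 : ∀ x m, dist (f (m + m₀) x) (F x) ≤ 1 * (1 / 2) ^ m / (1 - 1 / 2) := by
      intro x m
      refine dist_le_of_le_geometric_of_tendsto (1 / 2) 1 (by norm_num) (fun m => ?_) (hF x) m
      rw [dist_comm, one_mul, show m + 1 + m₀ = (m + m₀) + 1 by ring]
      refine (hf (m + m₀) (by omega) x).trans ?_
      exact pow_le_pow_of_le_one (by norm_num) (by norm_num) (by omega)
    have h4 : Tendsto (fun m : ℕ => 1 * (1 / 2 : ℝ) ^ m / (1 - 1 / 2)) atTop (𝓝 0) := by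
      have := (tendsto_pow_atTop_nhds_zero_of_lt_one (r := (1 / 2 : ℝ)) (by norm_num)
        (by norm_num)).const_mul 2
      rw [mul_zero] at this
      refine this.congr fun m => ?_
      ring
    obtain ⟨M, hM⟩ := eventually_atTop.1 (h4.eventually (gt_mem_nhds hε))
    filter_upwards [eventually_ge_atTop (M + m₀)] with m hm x
    obtain ⟨j, rfl⟩ : ∃ j, m = j + m₀ := ⟨m - m₀, by omega⟩
    rw [dist_comm]
    exact (h3 x j).trans_lt (hM j (by omega))
  obtain ⟨F, hF⟩ := gen (fun m x => w m x) h1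
  obtain ⟨G, hG⟩ := gen (fun m x => (w m)⁻¹ x) h2
  have cF : Continuous F := hF.continuous (Frequently.of_forall fun m => (w m).continuous)
  have cG : Continuous G := hG.continuous (Frequently.of_forall fun m => ((w m)⁻¹).continuous)
  have key : ∀ (f g : ℕ → E n → E n) (F G : E n → E n), TendstoUniformly f F atTop →
      TendstoUniformly g G atTop → Continuous F → (∀ m x, f m (g m x) = x) → ∀ x, F (G x) = x := by
    intro f g F G hf hg hc h x
    have h5 : Tendsto (fun m => f m (g m x)) atTop (𝓝 (F (G x))) :=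
      hf.tendsto_comp hc.continuousAt (hg.tendsto_at x)
    simp only [h] at h5
    exact tendsto_nhds_unique h5 tendsto_const_nhds
  let y : E n ≃ₜ E n :=
    { toFun := F
      invFun := G
      left_inv := key _ _ _ _ hG hF cG fun m x => inv_apply_self (w m) x
      right_inv := key _ _ _ _ hF hG cF fun m x => apply_inv_self (w m) x
      continuous_toFun := cF
      continuous_invFun := cG }
  have hy : ∀ x, x ∉ K → y x = x := by
    intro x hx
    have h5 := hF.tendsto_at x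
    have h6 : (fun m => w m x) = fun _ => x := funext fun m => hw m x hx
    rw [h6] at h5
    exact tendsto_nhds_unique h5 tendsto_const_nhds
  exact ⟨y, hy, uconv_of uc hK hy hF⟩

/-- uniqueness of limits -/
theorem UConv.unique {u : ℕ → (E n ≃ₜ E n)} {g h : E n ≃ₜ E n} (hg : UConv u g) (hh : UConv u h) :
    g = h :=
  Homeomorph.ext fun x => tendsto_nhds_unique (hg.1.tendsto_at x) (hh.1.tendsto_at x)

/-- sequential continuity for `UConv` -/
def SC (F : (E n ≃ₜ E n) → (E n ≃ₜ E n)) : Prop :=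
  ∀ (u : ℕ → (E n ≃ₜ E n)) (g : E n ≃ₜ E n), UConv u g → UConv (fun k => F (u k)) (F g)

theorem uconv_const {K : Set (E n)} (hK : IsCompact K) {φ : E n ≃ₜ E n}
    (h : ∀ x, x ∉ K → φ x = x) : UConv (fun _ => φ) φ := by
  refine uconv_of uc hK h ?_
  rw [Metric.tendstoUniformly_iff]
  intro ε hε
  exact Eventually.of_forall fun _ x => by rw [dist_self]; exact hε

/-- the maps `z ↦ x z ^ r` -/
theorem SC_step {K : Set (E n)} (hK : IsCompact K) {φ : E n ≃ₜ E n} (h : ∀ x, x ∉ K → φ x = x)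
    (r : ℕ) : SC (fun z => φ * z ^ r) :=
  fun _ _ hu => uc_mul (uconv_const hK h) (uc_pow hu r)

/-- the index chosen in the step `m` -/
noncomputable def pick (x : ℕ → (E n ≃ₜ E n)) (m : ℕ)
    (s : ℕ → (E n ≃ₜ E n) → (E n ≃ₜ E n)) : ℕ :=
  Classical.epsilon fun i => ∀ k ≤ m, (∀ p, dist (s k (x i) p) (s k 1 p) ≤ (1 / 2) ^ m) ∧
    ∀ p, dist ((s k (x i))⁻¹ p) ((s k 1)⁻¹ p) ≤ (1 / 2) ^ m

/-- the partial solutions -/
noncomputable def stp (x : ℕ → (E n ≃ₜ E n)) (r : ℕ → ℕ → ℕ) :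
    ℕ → (ℕ → (E n ≃ₜ E n) → (E n ≃ₜ E n))
  | 0 => fun _ z => z
  | m + 1 => fun k z => if k ≤ m then
      stp x r m k (x (pick x m (stp x r m)) * z ^ r m (pick x m (stp x r m))) else z

/-- the chosen index -/
noncomputable def ix (x : ℕ → (E n ≃ₜ E n)) (r : ℕ → ℕ → ℕ) (m : ℕ) : ℕ :=
  pick x m (stp x r m)

theorem stp_succ (x : ℕ → (E n ≃ₜ E n)) (r : ℕ → ℕ → ℕ) (m k : ℕ) (h : k ≤ m)
    (z : E n ≃ₜ E n) :
    stp x r (m + 1) k z = stp x r m k (x (ix x r m) * z ^ r m (ix x r m)) := if_pos h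

theorem stp_id (x : ℕ → (E n ≃ₜ E n)) (r : ℕ → ℕ → ℕ) (m : ℕ) (z : E n ≃ₜ E n) :
    stp x r m m z = z := by
  cases m with
  | zero => rfl
  | succ m => exact if_neg (by omega)

theorem stp_SC {K : Set (E n)} (hK : IsCompact K) (x : ℕ → (E n ≃ₜ E n))
    (hx : ∀ i p, p ∉ K → x i p = p) (r : ℕ → ℕ → ℕ) (m k : ℕ) : SC (stp x r m k) := by
  induction m generalizing k with
  | zero => exact fun u g h => h
  | succ m ih =>
    by_cases hk : k ≤ m
    · intro u g h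
      simp only [stp_succ x r m k hk]
      exact ih k _ _ (SC_step hK (hx _) _ _ _ h)
    · intro u g h
      have : ∀ z, stp x r (m + 1) k z = z := fun z => if_neg hk
      simp only [this]
      exact h

theorem ix_spec {K : Set (E n)} (hK : IsCompact K) (x : ℕ → (E n ≃ₜ E n))
    (hx : ∀ i p, p ∉ K → x i p = p) (hx1 : UConv x 1) (r : ℕ → ℕ → ℕ) (m : ℕ) : ∀ k ≤ m,
    (∀ p, dist (stp x r m k (x (ix x r m)) p) (stp x r m k 1 p) ≤ (1 / 2) ^ m) ∧
    ∀ p, dist ((stp x r m k (x (ix x r m)))⁻¹ p) ((stp x r m k 1)⁻¹ p) ≤ (1 / 2) ^ m := by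
  refine Classical.epsilon_spec (p := fun i => ∀ k ≤ m,
        (∀ p, dist (stp x r m k (x i) p) (stp x r m k 1 p) ≤ (1 / 2) ^ m) ∧
        ∀ p, dist ((stp x r m k (x i))⁻¹ p) ((stp x r m k 1)⁻¹ p) ≤ (1 / 2) ^ m) ?_
  have hp : (0 : ℝ) < (1 / 2) ^ m := by positivity
  have h1 : ∀ k, ∀ᶠ i in atTop, (∀ p, dist (stp x r m k (x i) p) (stp x r m k 1 p) ≤ (1 / 2) ^ m) ∧
      ∀ p, dist ((stp x r m k (x i))⁻¹ p) ((stp x r m k 1)⁻¹ p) ≤ (1 / 2) ^ m := by
    intro k
    have h2 := stp_SC hK x hx r m k _ _ hx1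
    have h3 := Metric.tendstoUniformly_iff.1 h2.1 _ hp
    have h4 := Metric.tendstoUniformly_iff.1 (uc_inv h2).1 _ hp
    filter_upwards [h3, h4] with i hi hi'
    refine ⟨fun p => ?_, fun p => ?_⟩
    · rw [dist_comm]; exact (hi p).le
    · rw [dist_comm]; exact (hi' p).le
  have h2 : ∀ᶠ i in atTop, ∀ k ∈ Set.Iic m,
      (∀ p, dist (stp x r m k (x i) p) (stp x r m k 1 p) ≤ (1 / 2) ^ m) ∧
      ∀ p, dist ((stp x r m k (x i))⁻¹ p) ((stp x r m k 1)⁻¹ p) ≤ (1 / 2) ^ m :=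
    (Set.finite_Iic m).eventually_all.2 fun k _ => h1 k
  exact h2.exists

theorem stp_HK {K : Set (E n)} (hK : IsCompact K) (x : ℕ → (E n ≃ₜ E n))
    (hx : ∀ i, x i ∈ HK n K) (r : ℕ → ℕ → ℕ) (m k : ℕ) {z : E n ≃ₜ E n} (hz : z ∈ HK n K) :
    stp x r m k z ∈ HK n K := by
  induction m generalizing k z with
  | zero => exact hz
  | succ m ih =>
    by_cases hk : k ≤ m
    · rw [stp_succ x r m k hk]
      exact ih k (HK_mul hK (hx _) (HK_pow hK hz _))
    · have : stp x r (m + 1) k z = z := if_neg hk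
      rw [this]
      exact hz

theorem stp_front (x : ℕ → (E n ≃ₜ E n)) (r : ℕ → ℕ → ℕ) {k m : ℕ} (h : k + 1 ≤ m)
    (z : E n ≃ₜ E n) :
    stp x r m k z = x (ix x r k) * (stp x r m (k + 1) z) ^ r k (ix x r k) := by
  induction m, h using Nat.le_induction generalizing z with
  | base => rw [stp_succ x r k k le_rfl, stp_id, stp_id]
  | succ m hm ih => rw [stp_succ x r m k (by omega), ih, stp_succ x r m (k + 1) hm]

/-- **Key lemma.** If `x i → 1`, all equations `y k = x (i k) * y (k + 1) ^ r k (i k)` can be solved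
for suitable indices `i k`. -/
theorem key {K : Set (E n)} (hK : IsCompact K) (x : ℕ → (E n ≃ₜ E n))
    (hx : ∀ i, x i ∈ HK n K) (hx1 : UConv x 1) (r : ℕ → ℕ → ℕ) :
    ∃ (i : ℕ → ℕ) (y : ℕ → (E n ≃ₜ E n)), (∀ k, y k ∈ HK n K) ∧
      ∀ k, y k = x (i k) * y (k + 1) ^ r k (i k) := by
  have hxs : ∀ i p, p ∉ K → x i p = p := fun i => (hx i).1
  have hW : ∀ m k, stp x r m k 1 ∈ HK n K := fun m k => stp_HK hK x hx r m k (HK_one K)
  have hspec := ix_spec hK x hxs hx1 r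
  have hsucc : ∀ m k, k ≤ m → ∀ z : E n ≃ₜ E n, z = 1 →
      stp x r (m + 1) k z = stp x r m k (x (ix x r m)) := by
    intro m k hk z hz
    rw [stp_succ x r m k hk, hz, one_pow, mul_one]
  have hlim : ∀ k, ∃ y : E n ≃ₜ E n, (∀ p, p ∉ K → y p = p) ∧
      UConv (fun m => stp x r m k 1) y := by
    intro k
    refine exists_limit hK (fun m => stp x r m k 1) (fun m => (hW m k).1) k ?_ ?_
    · intro m hm p
      rw [hsucc m k hm 1 rfl]
      exact (hspec m k hm).1 p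
    · intro m hm p
      rw [hsucc m k hm 1 rfl]
      exact (hspec m k hm).2 p
  choose y hy1 hy2 using hlim
  refine ⟨ix x r, y, fun k => HK_closed (fun m => hW m k) (hy1 k) (hy2 k).1, fun k => ?_⟩
  have h1 : UConv (fun m => x (ix x r k) * (stp x r m (k + 1) 1) ^ r k (ix x r k))
      (x (ix x r k) * y (k + 1) ^ r k (ix x r k)) :=
    SC_step hK (hxs _) _ _ _ (hy2 (k + 1))
  refine Homeomorph.ext fun p => ?_
  refine tendsto_nhds_unique_of_eventuallyEq ((hy2 k).1.tendsto_at p) (h1.1.tendsto_at p) ?_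
  filter_upwards [eventually_ge_atTop (k + 1)] with m hm
  rw [stp_front x r hm]

end Pool.Agent.N235.DH
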